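import Mathlib

set_option autoImplicit false

namespace Pool.Agent.Results.MP_24e294_lc.Holds

abbrev Word := List (Fin 3)

def cnt (w u : Word) : ℕ := w.sublists'.count u

def Rule (y y' : Word) : Prop :=
  (y = [0, 2] ∧ y' = [2, 0]) ∨ (∃ t, y = [0, 1] ++ t ++ [1, 0] ∧ y' = [1, 0] ++ t ++ [0, 1]) ∨
    ∃ t, y = [1, 2] ++ t ++ [2, 1] ∧ y' = [2, 1] ++ t ++ [1, 2]

def G : SimpleGraph Word :=
  SimpleGraph.fromRel fun w w' => ∃ x z y y', Rule y y' ∧ w = x ++ y ++ z ∧ w' = x ++ y' ++ z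

def P (w w' : Word) : Prop := G.Reachable w w' ∧ cnt w [0, 1, 2] = cnt w' [0, 1, 2]

def Irred (w w' : Word) : Prop := w ≠ w' ∧ P w w' ∧
  ¬ ∃ v, v ≠ w ∧ v ≠ w' ∧ P w v ∧ P v w' ∧ G.dist w v + G.dist v w' = G.dist w w'

def Expr (n : ℕ) : Word → Word → Prop :=
  Relation.ReflTransGen fun u v => Irred u v ∧ G.dist u v < n

@[simp] lemma cnt_nil (w : Word) : cnt w [] = 1 := by
  induction w with
  | nil => rfl
  | cons a w ih =>
    rw [cnt, List.sublists'_cons, List.count_append, List.count_eq_zero (l := List.map _ _) |>.2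
      (by simp)]
    exact ih

@[simp] lemma nil_cnt (b : Fin 3) (u : Word) : cnt [] (b :: u) = 0 := by simp [cnt]

@[simp] lemma cnt_cons (a b : Fin 3) (w u : Word) :
    cnt (a :: w) (b :: u) = cnt w (b :: u) + if a = b then cnt w u else 0 := by
  rw [cnt, List.sublists'_cons, List.count_append]
  congr 1
  split_ifs with h
  · subst h
    exact List.count_map_of_injective _ _ List.cons_injective _
  · exact List.count_eq_zero.2 (by simp [h])

lemma zero (w : Word) (h : cnt w [1] = 0) :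
    cnt w [0, 1] = 0 ∧ cnt w [1, 2] = 0 ∧ cnt w [2, 1] = 0 ∧ cnt w [0, 1, 2] = 0 ∧
      cnt w [1, 0, 1] = 0 ∧ cnt w [1, 2, 1] = 0 := by
  induction w with
  | nil => simp
  | cons a w ih => fin_cases a <;> simp_all

lemma one (w : Word) (h : cnt w [1] = 1) :
    cnt w [0, 1, 2] = cnt w [0, 1] * cnt w [1, 2] ∧ cnt w [2] = cnt w [1, 2] + cnt w [2, 1] ∧
      cnt w [1, 0, 1] = 0 ∧ cnt w [1, 2, 1] = 0 := by
  induction w with
  | nil => simp at h
  | cons a w ih =>
    fin_cases a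
    · simp_all [add_mul]
    · have := zero w (by simpa using h)
      simp_all
    · simp_all [add_assoc]

lemma two (w : Word) (h : cnt w [1] = 2) :
    cnt w [0, 1] * cnt w [1, 2] = 2 * cnt w [0, 1, 2] + cnt w [1, 0, 1] * cnt w [1, 2, 1] := by
  induction w with
  | nil => simp at h
  | cons a w ih =>
    fin_cases a
    · simp_all [add_mul]; ring
    · have := one w (by simpa using h)
      simp [this]; ring
    · simp_all

def Q (s s' : Word) : Prop :=
  cnt s [1] = cnt s' [1] ∧ cnt s [2] = cnt s' [2] ∧ cnt s [0, 1] = cnt s' [0, 1] ∧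
    cnt s [1, 2] = cnt s' [1, 2] ∧ (cnt s [1] ≤ 2 →
      cnt s [1, 0, 1] ≤ cnt s' [1, 0, 1] + 2 ∧ cnt s' [1, 0, 1] ≤ cnt s [1, 0, 1] + 2)

lemma sw1 (t z : Word) : cnt (t ++ 0 :: 1 :: z) [1] = cnt (t ++ 1 :: 0 :: z) [1] ∧
    cnt (t ++ 0 :: 1 :: z) [2] = cnt (t ++ 1 :: 0 :: z) [2] ∧
    cnt (t ++ 0 :: 1 :: z) [0, 1] = cnt (t ++ 1 :: 0 :: z) [0, 1] + 1 ∧
    cnt (t ++ 0 :: 1 :: z) [1, 2] = cnt (t ++ 1 :: 0 :: z) [1, 2] ∧
    1 ≤ cnt (t ++ 0 :: 1 :: z) [1] := by
  induction t with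
  | nil => simp; omega
  | cons a t ih => fin_cases a <;> simp <;> omega

lemma sw2 (t z : Word) : cnt (t ++ 1 :: 2 :: z) [1] = cnt (t ++ 2 :: 1 :: z) [1] ∧
    cnt (t ++ 1 :: 2 :: z) [2] = cnt (t ++ 2 :: 1 :: z) [2] ∧
    cnt (t ++ 1 :: 2 :: z) [0, 1] = cnt (t ++ 2 :: 1 :: z) [0, 1] ∧
    cnt (t ++ 1 :: 2 :: z) [1, 2] = cnt (t ++ 2 :: 1 :: z) [1, 2] + 1 ∧
    cnt (t ++ 1 :: 2 :: z) [1, 0, 1] = cnt (t ++ 2 :: 1 :: z) [1, 0, 1] := by
  induction t with
  | nil => simp; omega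
  | cons a t ih => fin_cases a <;> simp <;> omega

lemma Q_rule (x z y y' : Word) (h : Rule y y') : Q (x ++ y ++ z) (x ++ y' ++ z) := by
  induction x with
  | cons a x ih => fin_cases a <;> simp [Q] at ih ⊢ <;> omega
  | nil =>
    rcases h with ⟨rfl, rfl⟩ | ⟨t, rfl, rfl⟩ | ⟨t, rfl, rfl⟩
    · simp [Q]
    · have := sw1 t z
      have h1 := one (t ++ 0 :: 1 :: z)
      have h2 := one (t ++ 1 :: 0 :: z)
      simp [Q]
      omega
    · have := sw2 t z
      simp [Q]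
      omega

lemma walk {u v : Word} (p : G.Walk u v) : cnt u [1] = cnt v [1] ∧ cnt u [0, 1] = cnt v [0, 1] ∧
    cnt u [1, 2] = cnt v [1, 2] ∧
      (cnt u [1] ≤ 2 → cnt v [1, 0, 1] ≤ cnt u [1, 0, 1] + 2 * p.length) := by
  induction p with
  | nil => simp
  | cons h p ih =>
    rw [SimpleGraph.Walk.length_cons]
    rcases h.2 with ⟨x, z, y, y', hr, rfl, rfl⟩ | ⟨x, z, y, y', hr, rfl, rfl⟩ <;>
      have := Q_rule x z y y' hr <;> unfold Q at this <;> omega

lemma reach {x z y y' : Word} (h : Rule y y') : G.Reachable (x ++ y ++ z) (x ++ y' ++ z) := by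
  by_cases he : x ++ y ++ z = x ++ y' ++ z
  · rw [he]
  · exact SimpleGraph.Adj.reachable ⟨he, Or.inl ⟨x, z, y, y', h, rfl, rfl⟩⟩

lemma perm {l l' : Word} (h : l.Perm l') (h1 : 1 ∉ l) (x z : Word) :
    G.Reachable (x ++ l ++ z) (x ++ l' ++ z) := by
  induction h generalizing x with
  | nil => rfl
  | cons a _ ih => simpa using ih (fun h => h1 (List.mem_cons_of_mem _ h)) (x ++ [a])
  | swap a b l =>
    have := reach (x := x) (z := l ++ z) (Or.inl ⟨rfl, rfl⟩)
    fin_cases a <;> fin_cases b <;> simp at h1 this ⊢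
    · exact this.symm
    · exact this
  | trans h _ ih1 ih2 => exact (ih1 h1 x).trans (ih2 (fun h' => h1 (h.mem_iff.2 h')) x)

open List in
lemma push (a : Fin 3) (ha : a = 0 ∨ a = 2) (m : ℕ) (t : Word) :
    G.Reachable (replicate m a ++ 1 :: t ++ 1 :: replicate m a)
      (1 :: (replicate m a ++ t ++ replicate m a) ++ [1]) := by
  induction m generalizing t with
  | zero => simp
  | succ m ih =>
    have h1 : G.Reachable (replicate m a ++ ([a, 1] ++ t ++ [1, a]) ++ replicate m a)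
        (replicate m a ++ ([1, a] ++ t ++ [a, 1]) ++ replicate m a) := by
      rcases ha with rfl | rfl
      · exact reach (Or.inr (Or.inl ⟨t, rfl, rfl⟩))
      · exact (reach (Or.inr (Or.inr ⟨t, rfl, rfl⟩))).symm
    have h2 := ih (a :: t ++ [a])
    convert h1.trans (by simpa using h2) using 1
    · rw [replicate_succ' (n := m), append_assoc, append_assoc, ← replicate_succ', replicate_succ]
      simp
    · rw [replicate_succ' (n := m), append_assoc, append_assoc, ← replicate_succ', replicate_succ]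
      simp

lemma rep (a : Fin 3) (m : ℕ) (z : Word) (b : Fin 3) (u : Word) (h : u.head? ≠ some a) :
    cnt (List.replicate m a ++ z) u = cnt z u ∧ cnt (List.replicate m a ++ z) (b :: u) =
      cnt z (b :: u) + if a = b then m * cnt z u else 0 := by
  induction m with
  | zero => simp
  | succ m ih =>
    rw [List.replicate_succ, List.cons_append, cnt_cons, ih.1, ih.2]
    refine ⟨?_, by split_ifs <;> ring⟩
    cases u with
    | nil => simp
    | cons c u => rw [cnt_cons, ih.1, if_neg (by rintro rfl; simp at h), add_zero]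

lemma rep_ne (a : Fin 3) (m : ℕ) (z : Word) (b : Fin 3) (u : Word) (h : a ≠ b) :
    cnt (List.replicate m a ++ z) (b :: u) = cnt z (b :: u) := by
  induction m with
  | zero => simp
  | succ m ih => rw [List.replicate_succ, List.cons_append, cnt_cons, ih, if_neg h, add_zero]

open List in
theorem result (N : ℕ) : ∃ n ≥ N, ∃ w w', Irred w w' ∧ G.dist w w' = n ∧ ¬ Expr n w w' := by
  classical
  obtain ⟨p, hp, hpp⟩ := Nat.exists_infinite_primes (2 * N + 3)
  obtain ⟨m, rfl⟩ := hpp.odd_of_ne_two (by omega)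
  let w0 : Word := replicate m 0 ++ 1 :: (0 :: replicate (2 * m + 1) 2) ++ 1 :: replicate m 0
  let w1 : Word := replicate m 2 ++ 1 :: (replicate (2 * m + 1) 0 ++ [2]) ++ 1 :: replicate m 2
  have r0 : ∀ (a : Fin 3) k b u, u.head? ≠ some a → cnt (replicate k a) u = cnt [] u ∧
      cnt (replicate k a) (b :: u) = cnt [] (b :: u) + if a = b then k * cnt [] u else 0 :=
    fun a k b u h => by simpa using rep a k [] b u h
  have r1 : ∀ (a : Fin 3) k b u, a ≠ b → cnt (replicate k a) (b :: u) = 0 :=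
    fun a k b u h => by simpa using rep_ne a k [] b u h
  have c0 : cnt w0 [1] = 2 ∧ cnt w0 [1, 0, 1] = 1 ∧ cnt w0 [1, 2, 1] = 2 * m + 1 ∧
      cnt w0 [0, 1, 2] = m * (2 * m + 1) := by
    simp [w0, rep, r0, rep_ne, r1]
  have c1 : cnt w1 [1, 0, 1] = 2 * m + 1 ∧ cnt w1 [0, 1, 2] = m * (2 * m + 1) := by
    simp [w1, rep, r0, rep_ne, r1, mul_comm]
  have h01 : P w0 w1 := by
    refine ⟨(push 0 (Or.inl rfl) m _).trans (.trans ?_ (push 2 (Or.inr rfl) m _).symm),
      c0.2.2.2.trans c1.2.symm⟩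
    refine perm (x := [1]) (perm_iff_count.2 fun a => ?_) (by simp [mem_replicate]) _
    fin_cases a <;> simp [count_replicate] <;> omega
  have cls : ∀ u, P w0 u → cnt u [1] = 2 ∧ (cnt u [1, 0, 1] = 1 ∨ cnt u [1, 0, 1] = 2 * m + 1) := by
    rintro u ⟨⟨q⟩, h⟩
    obtain ⟨h1, h2, h3, -⟩ := walk q
    have h4 := two w0 c0.1
    rw [h2, h3, h, two u (h1 ▸ c0.1), c0.2.1, c0.2.2.1, one_mul] at h4
    exact ⟨h1 ▸ c0.1, (Nat.dvd_prime hpp).1 ⟨_, (Nat.add_left_cancel h4).symm⟩⟩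
  have tr : ∀ {u v w}, P u v → P v w → P u w := fun a b => ⟨a.1.trans b.1, a.2.trans b.2⟩
  have ex : ∃ n, ∃ u v, P w0 u ∧ P u v ∧ cnt u [1, 0, 1] = 1 ∧ cnt v [1, 0, 1] ≠ 1 ∧
      G.dist u v = n := ⟨_, w0, w1, ⟨.rfl, rfl⟩, h01, c0.2.1, by omega, rfl⟩
  obtain ⟨u, v, h1, h2, h3, h4, h5⟩ := Nat.find_spec ex
  have mn : ∀ u v, P w0 u → P u v → cnt u [1, 0, 1] = 1 → G.dist u v < Nat.find ex →
      cnt v [1, 0, 1] = 1 := fun u v a b c d =>
    by_contra fun e => Nat.find_min ex d ⟨u, v, a, b, c, e, rfl⟩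
  refine ⟨_, ?_, u, v, ⟨fun h => h4 (h ▸ h3), h2, ?_⟩, h5, fun h => h4 ?_⟩
  · obtain ⟨q, hq⟩ := h2.1.exists_walk_length_eq_dist
    have := (walk q).2.2.2 (cls u h1).1.le
    have := (cls v (tr h1 h2)).2
    omega
  · rintro ⟨x, x1, x2, x3, x4, x5⟩
    have a := x3.1.pos_dist_of_ne x1.symm
    have b := x4.1.pos_dist_of_ne x2
    exact h4 (mn x v (tr h1 x3) x4 (mn u x h1 x3 h3 (by omega)) (by omega))
  · have : P w0 v ∧ cnt v [1, 0, 1] = 1 := by
      clear h2 h4 h5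
      induction h with
      | refl => exact ⟨h1, h3⟩
      | tail _ h ih => exact ⟨tr ih.1 h.1.2.1, mn _ _ ih.1 h.1.2.1 ih.2 h.2⟩
    exact this.2

end Pool.Agent.Results.MP_24e294_lc.Holds
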